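import Pool.Agent.J6H36.PF.Stm

/-!
# PF-ULT: the ultraproducts
-/

set_option autoImplicit false

universe u

namespace Pool.Agent.J6H28.PF

open Pool.Agent.J6H36.PF Filter

theorem t_ULT : Pool.Agent.J6H36.PF.S_ULT.{u} := by
  intro ι F _ U
  have hmem : ∀ r : (∀ j, F j), r ∈ IU F (U : Filter ι) ↔ ∀ᶠ j in (U : Filter ι), r j = 0 :=
    fun r => Iff.rfl
  refine ⟨?_, ?_, ?_⟩
  · rw [Ideal.isMaximal_iff]
    constructor
    · intro h
      rw [hmem] at h
      obtain ⟨j, hj⟩ := h.exists
      exact one_ne_zero hj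
    · intro J x hIJ hx hxJ
      rw [hmem] at hx
      have h1 : ∀ᶠ j in (U : Filter ι), x j ≠ 0 := Ultrafilter.eventually_not.2 hx
      have h2 : (fun j => (x j)⁻¹) * x - 1 ∈ IU F (U : Filter ι) := by
        rw [hmem]
        filter_upwards [h1] with j hj
        rw [Pi.sub_apply, Pi.mul_apply, Pi.one_apply, inv_mul_cancel₀ hj, sub_self]
      have h3 : (fun j => (x j)⁻¹) * x - ((fun j => (x j)⁻¹) * x - 1) ∈ J :=
        J.sub_mem (J.mul_mem_left _ hxJ) (hIJ h2)
      rwa [sub_sub_cancel] at h3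
  · intro hfin hnp m hm h0
    have h1 : ((m : ∀ j, F j)) ∈ IU F (U : Filter ι) := by
      rw [← Ideal.Quotient.eq_zero_iff_mem, map_natCast]
      exact h0
    rw [hmem] at h1
    have h2 : {j | (m : F j) = 0} ∈ U := by
      filter_upwards [h1] with j hj
      simpa using hj
    have h3 : (⋃ j ∈ {j | (m : F j) = 0}, ({j} : Set ι)) ∈ U := by
      rwa [Set.biUnion_of_singleton]
    obtain ⟨j, -, hj⟩ := (Ultrafilter.finite_biUnion_mem_iff (hfin m hm)).1 h3
    exact hnp j hj
  · intro j hj
    have hker : IU F (U : Filter ι) = RingHom.ker (Pi.evalRingHom F j) := by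
      ext r
      rw [hmem, RingHom.mem_ker]
      constructor
      · intro h
        have h1 : {i | r i = 0} ∩ {j} ∈ U := Filter.inter_mem h hj
        obtain ⟨i, hi1, hi2⟩ := Ultrafilter.nonempty_of_mem h1
        rw [Set.mem_singleton_iff.1 hi2] at hi1
        exact hi1
      · intro h
        filter_upwards [hj] with i hi
        rw [Set.mem_singleton_iff.1 hi]
        exact h
    exact ⟨(Ideal.quotEquivOfEq hker).trans
      (RingHom.quotientKerEquivOfSurjective (Function.surjective_eval j))⟩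

end Pool.Agent.J6H28.PF
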